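import Pool.Agent.helper11.VQ.Spec3b

/-!
# MP_07c750_an, project VQ, row MSZ: the mass of the words
-/

set_option autoImplicit false

open scoped MatrixGroups ContDiff Topology UpperHalfPlane ComplexConjugate ENNReal
open UpperHalfPlane MeasureTheory Filter Set

namespace Pool.Agent.VQ

open Pool.Agent.RS
open Pool.Agent.RPQ (nst mks)

theorem MSZ_pq {Y : Type} [MeasurableSpace Y] (hUNZ : UNZ_stmt) (m : Measure Y) [SigmaFinite m] (M : Y → Y → ENNReal)
    (hM : Measurable (Function.uncurry M)) (V : Y → ENNReal) (hV : Measurable V) :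
    ∀ (n : ℕ) (x : Y), ∫⁻ y, pE m n (fun _ x y => M x y ^ 2) x y * V y ∂m = qZ m M (n + 1) V x := by
  intro n
  induction n with
  | zero => intro x; rfl
  | succ n ih =>
    intro x
    have hM2 : Measurable (Function.uncurry (fun x y : Y => M x y ^ 2)) := hM.pow_const 2
    have hP : Measurable (Function.uncurry (pE m n (fun _ x y => M x y ^ 2))) := ((hUNZ Y m (fun _ x y => M x y ^ 2) (fun _ => hM2) n)).1
    have hMx : Measurable (fun p : Y => M x p ^ 2) := (hM.comp measurable_prodMk_left).pow_const 2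
    have e1 : ∀ y : Y, pE m (n + 1) (fun _ x y => M x y ^ 2) x y * V y = ∫⁻ p, M x p ^ 2 * pE m n (fun _ x y => M x y ^ 2) p y * V y ∂m := by
      intro y
      show (∫⁻ p, M x p ^ 2 * pE m n (fun _ x y => M x y ^ 2) p y ∂m) * V y = _
      have a1 : Measurable (fun p : Y => M x p ^ 2 * pE m n (fun _ x y => M x y ^ 2) p y) := hMx.mul (hP.comp measurable_prodMk_right)
      exact (lintegral_mul_const _ a1).symm
    have e2 : ∫⁻ y, ∫⁻ p, M x p ^ 2 * pE m n (fun _ x y => M x y ^ 2) p y * V y ∂m ∂m =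
        ∫⁻ p, ∫⁻ y, M x p ^ 2 * pE m n (fun _ x y => M x y ^ 2) p y * V y ∂m ∂m := by
      refine lintegral_lintegral_swap ?_
      refine Measurable.aemeasurable ?_
      have a1 : Measurable (fun z : Y × Y => M x z.2 ^ 2) := hMx.comp measurable_snd
      have a2 : Measurable (fun z : Y × Y => pE m n (fun _ x y => M x y ^ 2) z.2 z.1) := hP.comp measurable_swap
      have a3 : Measurable (fun z : Y × Y => V z.1) := hV.comp measurable_fst
      exact (a1.mul a2).mul a3
    have e3 : ∀ p : Y, ∫⁻ y, M x p ^ 2 * pE m n (fun _ x y => M x y ^ 2) p y * V y ∂m = M x p ^ 2 * qZ m M (n + 1) V p := by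
      intro p
      have a1 : Measurable (fun y : Y => pE m n (fun _ x y => M x y ^ 2) p y * V y) := (hP.comp measurable_prodMk_left).mul hV
      rw [← ih p, ← lintegral_const_mul _ a1]
      refine lintegral_congr (fun y => ?_)
      exact mul_assoc _ _ _
    calc ∫⁻ y, pE m (n + 1) (fun _ x y => M x y ^ 2) x y * V y ∂m
        = ∫⁻ y, ∫⁻ p, M x p ^ 2 * pE m n (fun _ x y => M x y ^ 2) p y * V y ∂m ∂m := lintegral_congr e1
      _ = ∫⁻ p, ∫⁻ y, M x p ^ 2 * pE m n (fun _ x y => M x y ^ 2) p y * V y ∂m ∂m := e2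
      _ = ∫⁻ p, M x p ^ 2 * qZ m M (n + 1) V p ∂m := lintegral_congr e3
      _ = qZ m M (n + 1 + 1) V x := rfl

theorem MSZ_it {Y : Type} [MeasurableSpace Y] (m : Measure Y) (M : Y → Y → ENNReal) (hM : Measurable (Function.uncurry M))
    (V : Y → ENNReal) (G : ℕ → Set Y) (c K : ENNReal) (b N : ℕ)
    (hG : ∀ (j : ℕ) (x y : Y), x ∈ G j → M x y ≠ 0 → y ∈ G (j + 1)) (hc : ∀ x : Y, ∫⁻ y, M x y ^ 2 ∂m ≤ c)
    (hb : ∀ j ≤ N, ∀ x ∈ G j, qZ m M b V x ≤ K) :
    ∀ (a j : ℕ) (x : Y), j + a ≤ N → x ∈ G j → qZ m M (a + b) V x ≤ c ^ a * K := by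
  intro a
  induction a with
  | zero =>
    intro j x hj hx
    rw [zero_add, pow_zero, one_mul]
    exact hb j (by omega) x hx
  | succ a ih =>
    intro j x hj hx
    have hMx : Measurable (fun p : Y => M x p ^ 2) := (hM.comp measurable_prodMk_left).pow_const 2
    have e0 : a + 1 + b = (a + b) + 1 := by omega
    rw [e0]
    calc qZ m M ((a + b) + 1) V x = ∫⁻ y, M x y ^ 2 * qZ m M (a + b) V y ∂m := rfl
      _ ≤ ∫⁻ y, M x y ^ 2 * (c ^ a * K) ∂m := by
          refine lintegral_mono (fun y => ?_)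
          by_cases hy : M x y = 0
          · simp only [hy]
            simp
          · exact mul_le_mul_right (ih (j + 1) y (by omega) (hG j x y hx hy)) _
      _ = (∫⁻ y, M x y ^ 2 ∂m) * (c ^ a * K) := lintegral_mul_const _ hMx
      _ ≤ c * (c ^ a * K) := mul_le_mul_left (hc x) _
      _ = c ^ (a + 1) * K := by rw [pow_succ]; ring

theorem MSZ_main {Y : Type} [MeasurableSpace Y] (hUNZ : UNZ_stmt) (hWEZ : WEZ_stmt) (m : Measure Y) [SigmaFinite m] (M : Y → Y → ENNReal)
    (A : Set Y) (G : ℕ → Set Y) (c q : ENNReal) (b N : ℕ) (hM : Measurable (Function.uncurry M)) (hA : MeasurableSet A)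
    (hAG : ∀ x ∈ A, x ∈ G 0) (hG : ∀ (j : ℕ) (x y : Y), x ∈ G j → M x y ≠ 0 → y ∈ G (j + 1)) (hc : ∀ x : Y, ∫⁻ y, M x y ^ 2 ∂m ≤ c)
    (hb : ∀ j ≤ N, ∀ x ∈ G j, qZ m M b (A.indicator (fun _ => 1)) x ≤ c ^ b * q) :
    ∀ l : List ℕ, l ≠ [] → (∀ n' ∈ l, b ≤ n' + 1) → nst l ≤ N → ∀ x : Y,
      ∫⁻ y, wE m (fun x y => M x y ^ 2) A l x y ∂m ≤ c ^ nst l * q ^ l.length * A.indicator (fun _ => 1) x := by
  have hIA : Measurable (A.indicator (fun _ => (1 : ENNReal))) := measurable_const.indicator hA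
  have hM2 : Measurable (Function.uncurry (fun x y : Y => M x y ^ 2)) := hM.pow_const 2
  have hP : ∀ n : ℕ, Measurable (Function.uncurry (pE m n (fun _ x y => M x y ^ 2))) :=
    fun n => ((hUNZ Y m (fun _ x y => M x y ^ 2) (fun _ => hM2) n)).1
  -- one block
  have key : ∀ (n : ℕ) (x : Y), b ≤ n + 1 → n + 1 ≤ N →
      A.indicator (fun _ => (1 : ENNReal)) x * (∫⁻ y, pE m n (fun _ x y => M x y ^ 2) x y * A.indicator (fun _ => 1) y ∂m) ≤
        c ^ (n + 1) * q * A.indicator (fun _ => 1) x := by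
    intro n x hn hN
    by_cases hx : x ∈ A
    · rw [MSZ_pq hUNZ m M hM _ hIA n x]
      simp only [Set.indicator_of_mem hx, one_mul, mul_one]
      have e : n + 1 = (n + 1 - b) + b := by omega
      have h1 := MSZ_it m M hM (A.indicator (fun _ => 1)) G c (c ^ b * q) b N hG hc hb (n + 1 - b) 0 x (by omega) (hAG x hx)
      rw [← e] at h1
      refine h1.trans (le_of_eq ?_)
      rw [← mul_assoc, ← pow_add, ← e]
    · rw [Set.indicator_of_notMem hx, zero_mul]
      exact bot_le
  intro l
  induction l with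
  | nil => intro h; exact absurd rfl h
  | cons n l ih =>
    intro _ hl hN x
    have hPx : Measurable (fun p : Y => pE m n (fun _ x y => M x y ^ 2) x p) := (hP n).comp measurable_prodMk_left
    have hPA : Measurable (fun p : Y => pE m n (fun _ x y => M x y ^ 2) x p * A.indicator (fun _ => 1) p) := hPx.mul hIA
    cases l with
    | nil =>
      have e1 : nst [n] = n + 1 := by simp [nst]
      rw [e1] at hN ⊢
      have e2 : ∫⁻ y, wE m (fun x y => M x y ^ 2) A [n] x y ∂m =
          A.indicator (fun _ => (1 : ENNReal)) x * (∫⁻ y, pE m n (fun _ x y => M x y ^ 2) x y * A.indicator (fun _ => 1) y ∂m) := by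
        rw [← lintegral_const_mul _ hPA]
        refine lintegral_congr (fun y => ?_)
        show A.indicator (fun _ => 1) x * pE m n (fun _ => fun x y => M x y ^ 2) x y * A.indicator (fun _ => 1) y = _
        exact mul_assoc _ _ _
      rw [e2]
      have h1 := key n x (hl n (by simp)) hN
      simpa using h1
    | cons k l =>
      have e1 : nst (n :: k :: l) = (n + 1) + nst (k :: l) := by simp [nst]
      have hne : k :: l ≠ [] := by simp
      have hW : Measurable (Function.uncurry (wE m (fun x y => M x y ^ 2) A (k :: l))) := (hWEZ Y m M A (k :: l) hM hA hne).1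
      rw [e1] at hN
      have hih := ih hne (fun n' hn' => hl n' (List.mem_cons_of_mem _ hn')) (by omega)
      have e2 : ∫⁻ y, wE m (fun x y => M x y ^ 2) A (n :: k :: l) x y ∂m =
          ∫⁻ p, ∫⁻ y, A.indicator (fun _ => 1) x * pE m n (fun _ x y => M x y ^ 2) x p * wE m (fun x y => M x y ^ 2) A (k :: l) p y ∂m ∂m := by
        show ∫⁻ y, ∫⁻ p, A.indicator (fun _ => 1) x * pE m n (fun _ => fun x y => M x y ^ 2) x p * wE m (fun x y => M x y ^ 2) A (k :: l) p y ∂m ∂m = _
        refine lintegral_lintegral_swap ?_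
        refine Measurable.aemeasurable ?_
        have a1 : Measurable (fun z : Y × Y => pE m n (fun _ x y => M x y ^ 2) x z.2) := hPx.comp measurable_snd
        have a2 : Measurable (fun z : Y × Y => wE m (fun x y => M x y ^ 2) A (k :: l) z.2 z.1) := hW.comp measurable_swap
        exact (a1.const_mul _).mul a2
      rw [e2]
      have e3 : ∀ p : Y, ∫⁻ y, A.indicator (fun _ => 1) x * pE m n (fun _ x y => M x y ^ 2) x p * wE m (fun x y => M x y ^ 2) A (k :: l) p y ∂m ≤
          c ^ nst (k :: l) * q ^ (k :: l).length * A.indicator (fun _ => 1) x * (pE m n (fun _ x y => M x y ^ 2) x p * A.indicator (fun _ => 1) p) := by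
        intro p
        have hWp : Measurable (fun y : Y => wE m (fun x y => M x y ^ 2) A (k :: l) p y) := hW.comp measurable_prodMk_left
        rw [lintegral_const_mul _ hWp]
        refine (mul_le_mul_right (hih p) _).trans (le_of_eq ?_)
        ring
      refine (lintegral_mono e3).trans ?_
      rw [lintegral_const_mul _ hPA, mul_assoc]
      refine (mul_le_mul_right (key n x (hl n (by simp)) (by omega)) _).trans (le_of_eq ?_)
      rw [e1, pow_add, List.length_cons (a := n), pow_succ]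
      ring

theorem MSZ_proof (hUNZ : UNZ_stmt) (hWEZ : WEZ_stmt) : MSZ_stmt := by
  intro Y _ m _ M A D G c q b N L n l hM hA hAG hG hc hb hb1 hL hl hN
  obtain ⟨cc, hcc, hcn, hlc⟩ := hl
  have hlen : l.length = L := by rw [hlc, List.length_map, hcc]
  have hne : l ≠ [] := by
    intro h
    rw [h] at hlen
    simp at hlen
    omega
  have hlb : ∀ n' ∈ l, b ≤ n' + 1 := by
    intro n' hn'
    rw [hlc, List.mem_map] at hn'
    obtain ⟨x, _, rfl⟩ := hn'
    omega
  have hmain := MSZ_main hUNZ hWEZ m M A G c q b N hM hA hAG hG hc hb l hne hlb hN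
  have e1 : ∀ x : Y, ∫⁻ y, ∫⁻ v, inZ A l (vz x y v) * wM M l (vz x y v) ^ 2 ∂mZ m (nst l - 1) ∂m = ∫⁻ y, wE m (fun x y => M x y ^ 2) A l x y ∂m :=
    fun x => lintegral_congr (fun y => (hWEZ Y m M A l hM hA hne).2 x y)
  calc ∫⁻ x in D, ∫⁻ y, ∫⁻ v, inZ A l (vz x y v) * wM M l (vz x y v) ^ 2 ∂mZ m (nst l - 1) ∂m ∂m
      ≤ ∫⁻ _ in D, c ^ nst l * q ^ L ∂m := by
        refine lintegral_mono (fun x => ?_)
        show ∫⁻ y, ∫⁻ v, inZ A l (vz x y v) * wM M l (vz x y v) ^ 2 ∂mZ m (nst l - 1) ∂m ≤ c ^ nst l * q ^ L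
        rw [e1 x]
        refine (hmain x).trans ?_
        rw [hlen]
        calc c ^ nst l * q ^ L * A.indicator (fun _ => 1) x ≤ c ^ nst l * q ^ L * 1 := by
              refine mul_le_mul_right ?_ _
              by_cases hx : x ∈ A
              · rw [Set.indicator_of_mem hx]
              · rw [Set.indicator_of_notMem hx]
                exact bot_le
          _ = c ^ nst l * q ^ L := mul_one _
    _ = c ^ nst l * q ^ L * m D := by
        rw [lintegral_const, Measure.restrict_apply_univ]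

end Pool.Agent.VQ
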