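import Pool.Agent.helper74.VQ.SpecC
import Pool.Agent.helper44.VQ.VQA

/-!
# MP_07c750_an, project VQ, row VSA: the synthesis of beams is a contraction
-/

set_option autoImplicit false

open scoped MatrixGroups ContDiff Topology UpperHalfPlane ComplexConjugate ENNReal
open UpperHalfPlane MeasureTheory Filter Set

namespace Pool.Agent.VQ

open Pool.Agent.RS

noncomputable section

theorem VSA_cs {X : Type} [MeasurableSpace X] (μ : Measure X) (f g : X → ℝ) (hf : Integrable (fun x => f x ^ 2) μ)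
    (hg : Integrable (fun x => g x ^ 2) μ) (hfg : Integrable (fun x => f x * g x) μ) :
    ∫ x, f x * g x ∂μ ≤ Real.sqrt (∫ x, f x ^ 2 ∂μ) * Real.sqrt (∫ x, g x ^ 2 ∂μ) := by
  set A := ∫ x, f x ^ 2 ∂μ with hA
  set M := ∫ x, f x * g x ∂μ with hM
  set B := ∫ x, g x ^ 2 ∂μ with hB
  have hA0 : 0 ≤ A := integral_nonneg (fun x => by positivity)
  have key : ∀ x : ℝ, 0 ≤ A * (x * x) + (-2 * M) * x + B := by
    intro s
    have h1 : ∫ x, (s * f x - g x) ^ 2 ∂μ = A * (s * s) + (-2 * M) * s + B := by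
      have e1 : ∀ x, (s * f x - g x) ^ 2 = (s * s) * f x ^ 2 + ((-2 * s) * (f x * g x) + g x ^ 2) := fun x => by ring
      simp only [e1]
      have j1 : Integrable (fun x => (s * s) * f x ^ 2) μ := hf.const_mul _
      have j2 : Integrable (fun x => (-2 * s) * (f x * g x)) μ := hfg.const_mul _
      have j3 : Integrable (fun x => (-2 * s) * (f x * g x) + g x ^ 2) μ := j2.add hg
      rw [integral_add j1 j3, integral_add j2 hg, integral_const_mul, integral_const_mul]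
      ring
    rw [← h1]
    exact integral_nonneg (fun x => by positivity)
  have h2 := discrim_le_zero key
  rw [discrim] at h2
  have h3 : M ^ 2 ≤ A * B := by nlinarith
  rw [← Real.sqrt_mul hA0]
  exact (le_abs_self M).trans (by rw [← Real.sqrt_sq_eq_abs]; exact Real.sqrt_le_sqrt h3)

theorem VSA_isq {Γ : Subgroup SL(2, ℝ)} {F : Set ℍ} (hD : Dm Γ F) {φ : ℍ → ℂ} (hφ : FH Γ F φ) :
    IntegrableOn (fun z => ‖φ z‖ ^ 2) F := by
  obtain ⟨b, hb⟩ := hφ.supp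
  refine VQA_int (VQA_meas hD) (hφ.cont.norm.pow 2) ⟨b, fun z hz h0 => hb z hz (fun h1 => h0 ?_)⟩
  rw [h1]; simp

theorem VSA_imul {Γ : Subgroup SL(2, ℝ)} {F : Set ℍ} (hD : Dm Γ F) {φ ψ : ℍ → ℂ} (hφ : FH Γ F φ) (hψ : FH Γ F ψ) :
    IntegrableOn (fun z => ‖φ z‖ * ‖ψ z‖) F := by
  obtain ⟨b, hb⟩ := hφ.supp
  refine VQA_int (VQA_meas hD) (hφ.cont.norm.mul hψ.cont.norm) ⟨b, fun z hz h0 => hb z hz (fun h1 => h0 ?_)⟩
  rw [h1]; simp

theorem VSA_csn {Γ : Subgroup SL(2, ℝ)} {F : Set ℍ} (hD : Dm Γ F) {φ ψ : ℍ → ℂ} (hφ : FH Γ F φ) (hψ : FH Γ F ψ) :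
    ∫ z in F, ‖φ z‖ * ‖ψ z‖ ≤ Real.sqrt (nn F φ) * Real.sqrt (nn F ψ) :=
  VSA_cs _ _ _ (VSA_isq hD hφ) (VSA_isq hD hψ) (VSA_imul hD hφ hψ)

theorem VSA_mink {Γ : Subgroup SL(2, ℝ)} {F : Set ℍ} (hD : Dm Γ F) {φ ψ : ℍ → ℂ} (hφ : FH Γ F φ) (hψ : FH Γ F ψ) :
    Real.sqrt (nn F (fun z => φ z + ψ z)) ≤ Real.sqrt (nn F φ) + Real.sqrt (nn F ψ) := by
  have hn1 : 0 ≤ nn F φ := integral_nonneg (fun z => by positivity)
  have hn2 : 0 ≤ nn F ψ := integral_nonneg (fun z => by positivity)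
  apply Real.sqrt_le_iff.mpr
  refine ⟨by positivity, ?_⟩
  have i1 := VSA_isq hD hφ
  have i2 := VSA_isq hD hψ
  have i3 := VSA_imul hD hφ hψ
  have h1 : nn F (fun z => φ z + ψ z) ≤ ∫ z in F, (‖φ z‖ ^ 2 + (2 * (‖φ z‖ * ‖ψ z‖) + ‖ψ z‖ ^ 2)) := by
    refine integral_mono_of_nonneg (Eventually.of_forall fun z => by positivity) (i1.add ((i3.const_mul 2).add i2)) (Eventually.of_forall fun z => ?_)
    show ‖φ z + ψ z‖ ^ 2 ≤ ‖φ z‖ ^ 2 + (2 * (‖φ z‖ * ‖ψ z‖) + ‖ψ z‖ ^ 2)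
    have h2 := norm_add_le (φ z) (ψ z)
    have h3 := norm_nonneg (φ z + ψ z)
    nlinarith [pow_le_pow_left₀ h3 h2 2]
  have j1 : IntegrableOn (fun z => 2 * (‖φ z‖ * ‖ψ z‖)) F := i3.const_mul 2
  have j2 : IntegrableOn (fun z => 2 * (‖φ z‖ * ‖ψ z‖) + ‖ψ z‖ ^ 2) F := j1.add i2
  rw [integral_add i1 j2, integral_add j1 i2, integral_const_mul] at h1
  have h4 := VSA_csn hD hφ hψ
  have h5 := Real.sq_sqrt hn1
  have h6 := Real.sq_sqrt hn2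
  have h7 : ∫ z in F, ‖φ z‖ ^ 2 = nn F φ := rfl
  have h8 : ∫ z in F, ‖ψ z‖ ^ 2 = nn F ψ := rfl
  rw [h7, h8] at h1
  nlinarith

theorem VSA_win {R : ℝ} (hW : 2 * R ^ (-(1 / 4) : ℝ) ≤ 1 / 8) {E : ℝ} (hE : E ∈ Wi 2 R) : |E| ≤ 1 / 8 :=
  abs_le.mpr ⟨by have := hE.1; linarith, hE.2.trans hW⟩

/-- integrability of the integrand of the synthesis -/
theorem VSA_int (hVDM : VDM_stmt) (hVFR : VFR_stmt) {Γ : Subgroup SL(2, ℝ)} {F : Set ℍ} {δ : ℝ} {B : ℕ → ℝ} {D : Dyn} {K : ℕ} {η m R t : ℝ}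
    {f : SL(2, ℝ) × ℝ → ℂ → ℂ} (hDm : Dm Γ F) (hD : OKD Γ δ B D) (hδ : δ ≤ 1 / 10) (hη : 0 < η) (hη4 : η ≤ 1 / 4) (hm : 0 ≤ m)
    (hRη : R ^ (-(1 / 2) + η) ≤ 1 / 4) (hW : 2 * R ^ (-(1 / 4) : ℝ) ≤ 1 / 8) (hR : 1 ≤ R) (hfa : Fa Γ D K η m R t f)
    {v : SL(2, ℝ) × ℝ → ℂ} (hv : FP Γ F v) (z : ℍ) : IntegrableOn (fun q => v q * pF D t f q z) (GW 2 R) mP := by
  obtain ⟨hc, hb, -⟩ := hVFR Γ F δ B D K η m R t f hDm hD hδ hη hη4 hm hRη hW hR hfa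
  obtain ⟨b, hvb⟩ := hv.bdd
  have hW0 : 0 ≤ R ^ (-(1 / 4) : ℝ) := Real.rpow_nonneg (by linarith) _
  have hGW : MeasurableSet (GW 2 R) := MeasurableSet.univ.prod measurableSet_Icc
  set r0 : ℝ := 6 / 5 * |t| + 1 + dist z I with hr0
  set S : Set (SL(2, ℝ) × ℝ) := {g : SL(2, ℝ) | dist (g • I : ℍ) I ≤ r0} ×ˢ (Wi 2 R ∩ Icc (-1) 1) with hS
  have hSc : IsClosed {g : SL(2, ℝ) | dist (g • I : ℍ) I ≤ r0} :=
    isClosed_le ((continuous_id.smul continuous_const).dist continuous_const) continuous_const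
  have hSm : MeasurableSet S := hSc.measurableSet.prod (measurableSet_Icc.inter measurableSet_Icc)
  have hSf : mP S < ⊤ := (hVDM Γ F hDm).2.2.2.2 (Wi 2 R) measurableSet_Icc |>.2.2.2.2.2 r0
  have hSG : S ⊆ GW 2 R := fun q hq => ⟨mem_univ _, hq.2.1⟩
  have hcz : ContinuousOn (fun q : SL(2, ℝ) × ℝ => pF D t f q z) (GW 2 R) := by
    have h1 : ContinuousOn (fun q : SL(2, ℝ) × ℝ => (q, z)) (GW 2 R) := by fun_prop
    exact hc.comp h1 (fun q hq => VSA_win hW hq.2)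
  have i1 : IntegrableOn (fun q => v q * pF D t f q z) S mP := by
    have : IsFiniteMeasure (mP.restrict S) := ⟨by rw [Measure.restrict_apply_univ]; exact hSf⟩
    refine Integrable.of_bound (hv.meas.aestronglyMeasurable.mul ((hcz.mono hSG).aestronglyMeasurable hSm)) (b * m) ?_
    refine (ae_restrict_mem hSm).mono (fun q hq => ?_)
    have h2 := (hb q (hSG hq) z).1
    have h3 := hvb q
    show ‖v q * pF D t f q z‖ ≤ b * m
    rw [norm_mul]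
    exact mul_le_mul h3 h2 (norm_nonneg _) ((norm_nonneg _).trans h3)
  refine i1.of_forall_sdiff_eq_zero hGW (fun q hq => ?_)
  by_contra h0
  have h1 : pF D t f q z ≠ 0 := fun h => h0 (by show v q * pF D t f q z = 0; rw [h, mul_zero])
  have h2 := ((hb q hq.1 z).2 h1).2
  apply hq.2
  refine ⟨?_, hq.1.2, ?_⟩
  · show dist (q.1 • I : ℍ) I ≤ r0
    have := dist_triangle (q.1 • I : ℍ) z I
    rw [hr0]
    linarith
  · have := VSA_win hW hq.1.2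
    rw [abs_le] at this
    exact ⟨by linarith [this.1], by linarith [this.2]⟩

/-- the numbers -/
theorem VSA_num {R : ℝ} (hR : (17 : ℝ) ^ 8 ≤ R) : 2 * R ^ (-(1 / 4) : ℝ) ≤ 1 / 8 ∧ (∀ η : ℝ, η ≤ 1 / 4 → R ^ (-(1 / 2) + η) ≤ 1 / 4) ∧
    ∀ t x y : ℝ, t ≤ Real.log R → 0 ≤ t → x ≤ -(7 / 16) → y ≤ -(3 / 8) → R ^ y + t * R ^ x ≤ R ^ (-(1 / 4) : ℝ) := by
  have hR0 : 0 < R := lt_of_lt_of_le (by norm_num) hR
  have hR1 : 1 ≤ R := le_trans (by norm_num) hR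
  have h8 : 17 ≤ R ^ (1 / 8 : ℝ) := by
    have h1 : (17 : ℝ) = ((17 : ℝ) ^ 8) ^ (1 / 8 : ℝ) := by
      rw [← Real.rpow_natCast, ← Real.rpow_mul (by norm_num)]
      norm_num
    rw [h1]
    exact Real.rpow_le_rpow (by norm_num) hR (by norm_num)
  have h4 : 289 ≤ R ^ (1 / 4 : ℝ) := by
    have h1 : R ^ (1 / 4 : ℝ) = R ^ (1 / 8 : ℝ) * R ^ (1 / 8 : ℝ) := by
      rw [← Real.rpow_add hR0]; norm_num
    rw [h1]; nlinarith
  have h4' : R ^ (-(1 / 4) : ℝ) ≤ 1 / 289 := by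
    rw [Real.rpow_neg hR0.le, inv_eq_one_div]
    exact one_div_le_one_div_of_le (by norm_num) h4
  refine ⟨by linarith, ?_, ?_⟩
  · intro η hη
    have h1 : R ^ (-(1 / 2) + η) ≤ R ^ (-(1 / 4) : ℝ) := Real.rpow_le_rpow_of_exponent_le hR1 (by linarith)
    linarith
  · intro t x y ht ht0 hx hy
    have h1 : Real.log R ≤ R ^ (1 / 16 : ℝ) / (1 / 16) := Real.log_le_rpow_div hR0.le (by norm_num)
    have h2 : R ^ x ≤ R ^ (-(7 / 16) : ℝ) := Real.rpow_le_rpow_of_exponent_le hR1 hx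
    have h3 : R ^ y ≤ R ^ (-(3 / 8) : ℝ) := Real.rpow_le_rpow_of_exponent_le hR1 hy
    have h5 : R ^ (1 / 16 : ℝ) * R ^ (-(7 / 16) : ℝ) = R ^ (-(3 / 8) : ℝ) := by
      rw [← Real.rpow_add hR0]; norm_num
    have h6 : R ^ (-(1 / 4) : ℝ) = R ^ (1 / 8 : ℝ) * R ^ (-(3 / 8) : ℝ) := by
      rw [← Real.rpow_add hR0]; norm_num
    have h7 : 0 < R ^ (-(3 / 8) : ℝ) := Real.rpow_pos_of_pos hR0 _
    have h9 : 0 < R ^ (-(7 / 16) : ℝ) := Real.rpow_pos_of_pos hR0 _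
    have h10 : t * R ^ x ≤ 16 * R ^ (-(3 / 8) : ℝ) := by
      calc t * R ^ x ≤ t * R ^ (-(7 / 16) : ℝ) := mul_le_mul_of_nonneg_left h2 ht0
        _ ≤ (16 * R ^ (1 / 16 : ℝ)) * R ^ (-(7 / 16) : ℝ) := mul_le_mul_of_nonneg_right (by linarith) h9.le
        _ = 16 * R ^ (-(3 / 8) : ℝ) := by rw [mul_assoc, h5]
    rw [h6]
    nlinarith

theorem VSA_proof (hVEN : VEN_stmt) (hVFD : VFD_stmt) (hVFB : VFB_stmt) (hVFM : VFM_stmt) (hVFR : VFR_stmt) (hVD0 : VD0_stmt)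
    (hVQA : VQA_stmt) (hVUB : VUB_stmt) (hVDM : VDM_stmt) : VSA_stmt := by
  obtain ⟨CF, hCF, HF⟩ := hVFB
  obtain ⟨CM, hCM, HM⟩ := hVFM
  obtain ⟨C0, hC0, H0⟩ := hVD0
  have hCC : 1 ≤ 16 * (1 + CF) * (CM + C0) := by nlinarith
  refine ⟨16 * (1 + CF) * (CM + C0), hCC, ?_⟩
  intro ch e ζ ζ1 B hch hRg
  obtain ⟨he0, hζ0, hζζ1, hCe, hCζ⟩ := hRg
  have hζ1 : 0 < ζ1 := lt_of_lt_of_le hζ0 hζζ1
  have hp1 : 0 ≤ CF * (CM * ζ1) := by positivity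
  have hp2 : 0 ≤ CF * (C0 * ζ1) := by positivity
  have hp3 : 0 < CM * ζ1 := by positivity
  have hp4 : 0 < C0 * ζ1 := by positivity
  have hexp : 16 * (CM * ζ1 + C0 * ζ1 + CF * (CM * ζ1) + CF * (C0 * ζ1)) ≤ 1 := by nlinarith
  have hζ16 : ζ1 ≤ 1 / 16 := by nlinarith
  have hCMe : CM * e ≤ ζ1 := by
    refine le_trans (mul_le_mul_of_nonneg_right ?_ he0) hCe
    nlinarith
  have hC0e : C0 * e ≤ ζ1 := by
    refine le_trans (mul_le_mul_of_nonneg_right ?_ he0) hCe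
    nlinarith
  have he1 : e ≤ 1 := by nlinarith
  obtain ⟨K1, R1, hR1, HF1⟩ := HF (CM * ζ1) hp3 (by linarith)
  obtain ⟨R2, hR2, HM1⟩ := HM ch K1 e ζ ζ1 B hch ⟨he0, hζ0, hζζ1, hCMe, by linarith⟩
  obtain ⟨K2, R3, hR3, HF2⟩ := HF (C0 * ζ1) hp4 (by linarith)
  obtain ⟨R4, hR4, HD0⟩ := H0 ch K2 e ζ ζ1 ζ1 2 hch ⟨he0, hζ0, hζζ1, hC0e, by linarith⟩ le_rfl (by linarith)
  obtain ⟨R5, hR5, HQ⟩ := hVQA ch ζ hch hζ0 (by linarith)
  refine ⟨max (max (max R1 R2) (max R3 R4)) (max R5 (17 ^ 8)), le_trans (by norm_num) ((le_max_right R5 ((17 : ℝ) ^ 8)).trans (le_max_right _ _)), ?_⟩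
  intro R δ t Γ F D hR hDm hOK hδ ht0 ht
  have hRa : R1 ≤ R := (le_max_left _ _).trans ((le_max_left _ _).trans ((le_max_left _ _).trans hR))
  have hRb : R2 ≤ R := (le_max_right _ _).trans ((le_max_left _ _).trans ((le_max_left _ _).trans hR))
  have hRc : R3 ≤ R := (le_max_left _ _).trans ((le_max_right _ _).trans ((le_max_left _ _).trans hR))
  have hRd : R4 ≤ R := (le_max_right _ _).trans ((le_max_right _ _).trans ((le_max_left _ _).trans hR))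
  have hRe : R5 ≤ R := (le_max_left _ _).trans ((le_max_right _ _).trans hR)
  have hRf : (17 : ℝ) ^ 8 ≤ R := (le_max_right _ _).trans ((le_max_right _ _).trans hR)
  have hR0 : 0 < R := lt_of_lt_of_le (by norm_num) hRf
  have hR1' : 1 ≤ R := le_trans (by norm_num) hRf
  have hR2' : 2 ≤ R := le_trans (by norm_num) hRf
  obtain ⟨hW, hη, hnum⟩ := VSA_num hRf
  have hlog : 0 ≤ Real.log R := Real.log_nonneg hR1'
  have htlog : t ≤ Real.log R := ht.trans (by nlinarith)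
  have hPU : PU Γ D.U := (hVUB Γ δ B D.U hOK.pot hδ).1
  -- the families
  have hM := fun (s : ℝ) (hs : |s| ≤ e * Real.log R) => HM1 R δ s Γ D hRb hOK hδ hs
  have hM0 := hM 0 (by rw [abs_zero]; positivity)
  set f0 : SL(2, ℝ) × ℝ → ℂ → ℂ := fun p u => pv D ch ζ ζ1 R 0 p u - fG D ch ζ R p u with hf0
  have hfa0 : Fa Γ D K2 (C0 * ζ1) (R ^ (-2 : ℝ)) R 0 f0 := by
    refine ⟨hM0.1.cont.sub hM0.2.2.1.cont, ?_, ?_⟩
    · intro γ p
      funext u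
      show pv D ch ζ ζ1 R 0 ((γ : SL(2, ℝ)) * p.1, p.2) u - fG D ch ζ R ((γ : SL(2, ℝ)) * p.1, p.2) u = _
      rw [hM0.1.inv γ p, hM0.2.2.1.inv γ p]
    · intro p hp
      rw [hOK.fl0 p.2 p.1]
      exact (HD0 R δ Γ B D p 0 hRd hOK hδ (VSA_win hW hp.2) (by rw [abs_zero]; positivity)).1
  have part1 : ∀ v, FP Γ F v → nn F (sF D R t (pv D ch ζ ζ1 R t) v) ≤ (1 + R ^ (-(1 / 4) : ℝ)) ^ 2 * nP F 2 R v := by
    intro v hv
    have hnP : 0 ≤ nP F 2 R v := integral_nonneg (fun p => by positivity)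
    set N : ℝ := Real.sqrt (nP F 2 R v) with hN
    have hN0 : 0 ≤ N := Real.sqrt_nonneg _
    have hN2 : N ^ 2 = nP F 2 R v := Real.sq_sqrt hnP
    obtain ⟨b, g1, g2, g3, g4, g5, g6⟩ := hVFD ch ζ ζ1 R δ Γ F B D v hch hζ0 hζζ1 (by linarith) (hη ζ1 (by linarith)) hW hR2' hDm hOK hδ hv t ht0
    set ε : ℝ := R ^ (1 + CM * ζ1) * R ^ (-(3 / 2) + CF * (CM * ζ1)) * N with hε
    have hε0 : 0 ≤ ε := by positivity
    have hEr : ∀ s ∈ Icc 0 t, nn F (fun z => -(Complex.I * sF D R s (fun q => Er D ch ζ ζ1 R s q) v z)) ≤ ε ^ 2 := by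
      intro s hs
      have hs' : |s| ≤ e * Real.log R := by rw [abs_of_nonneg hs.1]; exact hs.2.trans ht
      have k1 := (HF1 R δ (R ^ (1 + CM * ζ1)) s Γ F B D (Er D ch ζ ζ1 R s) hRa hDm hOK hδ (by positivity) (hM s hs').2.1).1 v hv
      have k2 : nn F (fun z => -(Complex.I * sF D R s (fun q => Er D ch ζ ζ1 R s q) v z)) = nn F (sF D R s (Er D ch ζ ζ1 R s) v) := by
        unfold nn
        refine integral_congr_ae (Eventually.of_forall fun z => ?_)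
        show ‖-(Complex.I * sF D R s (fun q => Er D ch ζ ζ1 R s q) v z)‖ ^ 2 = ‖sF D R s (Er D ch ζ ζ1 R s) v z‖ ^ 2
        rw [norm_neg, norm_mul, Complex.norm_I, one_mul]
      rw [k2]
      refine k1.trans (le_of_eq ?_)
      rw [hε, mul_pow _ N, hN2]
    -- energy estimate
    have hen := hVEN Γ F D.U R t ε b (fun s z => ∫ q in GW 2 R, v q * psi D ch ζ ζ1 R s q z ∂mP)
      (fun s z => -(Complex.I * sF D R s (fun q => Er D ch ζ ζ1 R s q) v z)) hDm hPU hR1' ht0 hε0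
      (fun s hs => ⟨(g1 s hs).1, (g1 s hs).2.1, ⟨(continuous_const.mul (g1 s hs).2.2.cont).neg, fun γ z => by
        rw [(g1 s hs).2.2.inv γ z], by
        obtain ⟨b', hb'⟩ := (g1 s hs).2.2.supp
        exact ⟨b', fun z hz h0 => hb' z hz (fun h1 => h0 (by rw [h1]; simp))⟩⟩, hEr s hs⟩)
      (fun s hs z hz h0 => g2 s hs z hz (by
        rcases h0 with h0 | h0
        · exact Or.inl h0
        · exact Or.inr (fun h1 => h0 (by rw [h1]; simp))))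
      g3 g4 ((continuousOn_const.mul g5).neg) g6
    -- the initial value
    have hfr0 := hVFR Γ F δ B D K2 (C0 * ζ1) (R ^ (-2 : ℝ)) R 0 f0 hDm hOK hδ hp4 (by linarith) (by positivity) (hη _ (by linarith)) hW hR1' hfa0
    have hfrG := hVFR Γ F δ B D K1 (CM * ζ1) (R ^ (3 / 2 + CM * ζ1)) R 0 (fG D ch ζ R) hDm hOK hδ hp3 (by linarith) (by positivity) (hη _ (by linarith)) hW hR1' hM0.2.2.1
    have hFH0 : FH Γ F (sF D R 0 f0 v) := hfr0.2.2.2.1 v hv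
    have hFHG : FH Γ F (sF D R 0 (fG D ch ζ R) v) := hfrG.2.2.2.1 v hv
    have hQs : Qs D.U ch ζ R v = sF D R 0 (fG D ch ζ R) v := by
      funext z
      unfold Qs sF
      simp only [hM0.2.2.2.2]
    have hw0 : (fun z => ∫ q in GW 2 R, v q * psi D ch ζ ζ1 R 0 q z ∂mP) = fun z => sF D R 0 (fG D ch ζ R) v z + sF D R 0 f0 v z := by
      funext z
      have i1 := VSA_int hVDM hVFR hDm hOK hδ hp3 (by linarith) (by positivity) (hη _ (by linarith)) hW hR1' hM0.2.2.1 hv z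
      have i2 := VSA_int hVDM hVFR hDm hOK hδ hp4 (by linarith) (by positivity) (hη _ (by linarith)) hW hR1' hfa0 hv z
      unfold sF
      rw [← integral_add i1 i2]
      refine integral_congr_ae (Eventually.of_forall fun q => ?_)
      show v q * psi D ch ζ ζ1 R 0 q z = v q * pF D 0 (fG D ch ζ R) q z + v q * pF D 0 f0 q z
      rw [← mul_add]
      congr 1
      show pv D ch ζ ζ1 R 0 q (cd ((D.fl q.2 0 q.1)⁻¹ • z)) = fG D ch ζ R q (cd ((D.fl q.2 0 q.1)⁻¹ • z)) +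
        (pv D ch ζ ζ1 R 0 q (cd ((D.fl q.2 0 q.1)⁻¹ • z)) - fG D ch ζ R q (cd ((D.fl q.2 0 q.1)⁻¹ • z)))
      ring
    have hq1 : Real.sqrt (nn F (sF D R 0 (fG D ch ζ R) v)) ≤ N := by
      rw [← hQs]
      exact Real.sqrt_le_sqrt ((HQ R Γ F D.U hRe hDm hPU).2 v hv)
    have hq2 : Real.sqrt (nn F (sF D R 0 f0 v)) ≤ R ^ (-2 : ℝ) * R ^ (-(3 / 2) + CF * (C0 * ζ1)) * N := by
      have k1 := (HF2 R δ (R ^ (-2 : ℝ)) 0 Γ F B D f0 hRc hDm hOK hδ (by positivity) hfa0).1 v hv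
      have k3 : 0 ≤ R ^ (-2 : ℝ) * R ^ (-(3 / 2) + CF * (C0 * ζ1)) := by positivity
      rw [← hN2, ← mul_pow] at k1
      calc Real.sqrt (nn F (sF D R 0 f0 v)) ≤ Real.sqrt ((R ^ (-2 : ℝ) * R ^ (-(3 / 2) + CF * (C0 * ζ1)) * N) ^ 2) := Real.sqrt_le_sqrt k1
        _ = R ^ (-2 : ℝ) * R ^ (-(3 / 2) + CF * (C0 * ζ1)) * N := Real.sqrt_sq (mul_nonneg k3 hN0)
    have hq3 := VSA_mink hDm hFHG hFH0
    rw [← hw0] at hq3
    have hfin : Real.sqrt (nn F (fun z => ∫ q in GW 2 R, v q * psi D ch ζ ζ1 R t q z ∂mP)) ≤ (1 + R ^ (-(1 / 4) : ℝ)) * N := by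
      have k1 : R ^ (-2 : ℝ) * R ^ (-(3 / 2) + CF * (C0 * ζ1)) = R ^ (-2 + (-(3 / 2) + CF * (C0 * ζ1))) := (Real.rpow_add hR0 _ _).symm
      have k2 : R ^ (1 + CM * ζ1) * R ^ (-(3 / 2) + CF * (CM * ζ1)) = R ^ (1 + CM * ζ1 + (-(3 / 2) + CF * (CM * ζ1))) := (Real.rpow_add hR0 _ _).symm
      have k3 := hnum t (1 + CM * ζ1 + (-(3 / 2) + CF * (CM * ζ1))) (-2 + (-(3 / 2) + CF * (C0 * ζ1))) htlog ht0 (by linarith) (by linarith)
      rw [← k1, ← k2] at k3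
      have k4 := mul_le_mul_of_nonneg_right k3 hN0
      refine hen.trans ?_
      have k5 := hq3.trans (add_le_add hq1 hq2)
      refine (add_le_add_left k5 _).trans ?_
      rw [hε]
      linarith
    have hsF : sF D R t (pv D ch ζ ζ1 R t) v = fun z => ∫ q in GW 2 R, v q * psi D ch ζ ζ1 R t q z ∂mP := rfl
    rw [hsF, ← hN2, ← mul_pow]
    have hnn : 0 ≤ nn F (fun z => ∫ q in GW 2 R, v q * psi D ch ζ ζ1 R t q z ∂mP) := integral_nonneg (fun z => by positivity)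
    rw [← Real.sq_sqrt hnn]
    exact pow_le_pow_left₀ (Real.sqrt_nonneg _) hfin 2
  refine ⟨part1, ?_⟩
  intro φ hφ
  have htabs : |t| ≤ e * Real.log R := by rw [abs_of_nonneg ht0]; exact ht
  have hfr := hVFR Γ F δ B D K1 (CM * ζ1) (R ^ (3 / 2 + CM * ζ1)) R t (pv D ch ζ ζ1 R t) hDm hOK hδ hp3 (by linarith) (by positivity) (hη _ (by linarith)) hW hR1' (hM t htabs).1
  obtain ⟨-, -, -, hFHs, hFPa, hdual⟩ := hfr
  set P : SL(2, ℝ) × ℝ → ℂ := aF D R t (pv D ch ζ ζ1 R t) φ with hP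
  have hPF : FP Γ F P := hFPa φ hφ
  have hSP : FH Γ F (sF D R t (pv D ch ζ ζ1 R t) P) := hFHs P hPF
  have hd := hdual φ P hφ hPF
  have hx0 : 0 ≤ nP F 2 R P := integral_nonneg (fun p => by positivity)
  have hφ0 : 0 ≤ nn F φ := integral_nonneg (fun z => by positivity)
  have e4 : ∫ p in PW F 2 R, P p * conj (P p) ∂mP = ((nP F 2 R P : ℝ) : ℂ) := by
    rw [nP, ← integral_complex_ofReal]
    congr 1
    funext z
    rw [Complex.mul_conj, Complex.normSq_eq_norm_sq]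
  rw [← hP, e4] at hd
  have e5 : nP F 2 R P ≤ Real.sqrt (nn F φ) * Real.sqrt (nn F (sF D R t (pv D ch ζ ζ1 R t) P)) := by
    have e6 : nP F 2 R P = ‖((nP F 2 R P : ℝ) : ℂ)‖ := by rw [Complex.norm_real, Real.norm_of_nonneg hx0]
    rw [e6, hd]
    refine (norm_integral_le_integral_norm _).trans ?_
    have e7 : ∀ z, ‖φ z * conj (sF D R t (pv D ch ζ ζ1 R t) P z)‖ = ‖φ z‖ * ‖sF D R t (pv D ch ζ ζ1 R t) P z‖ := by
      intro z
      rw [norm_mul, RCLike.norm_conj]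
    simp only [e7]
    exact VSA_csn hDm hφ hSP
  have e8 : Real.sqrt (nn F (sF D R t (pv D ch ζ ζ1 R t) P)) ≤ (1 + R ^ (-(1 / 4) : ℝ)) * Real.sqrt (nP F 2 R P) := by
    have k1 := part1 P hPF
    have k2 : 0 ≤ 1 + R ^ (-(1 / 4) : ℝ) := by positivity
    calc Real.sqrt (nn F (sF D R t (pv D ch ζ ζ1 R t) P)) ≤ Real.sqrt ((1 + R ^ (-(1 / 4) : ℝ)) ^ 2 * nP F 2 R P) := Real.sqrt_le_sqrt k1
      _ = (1 + R ^ (-(1 / 4) : ℝ)) * Real.sqrt (nP F 2 R P) := by rw [Real.sqrt_mul (by positivity), Real.sqrt_sq k2]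
  set x : ℝ := Real.sqrt (nP F 2 R P) with hx
  have hxx : x ^ 2 = nP F 2 R P := Real.sq_sqrt hx0
  have hxn : 0 ≤ x := Real.sqrt_nonneg _
  set y : ℝ := Real.sqrt (nn F φ) with hy
  have hyy : y ^ 2 = nn F φ := Real.sq_sqrt hφ0
  have hyn : 0 ≤ y := Real.sqrt_nonneg _
  set c : ℝ := 1 + R ^ (-(1 / 4) : ℝ) with hc
  have hcn : 0 ≤ c := by positivity
  have e9 : x ^ 2 ≤ (c * y) * x := by
    rw [hxx]
    refine e5.trans ((mul_le_mul_of_nonneg_left e8 hyn).trans (le_of_eq ?_))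
    ring
  have e10 : x ≤ c * y := by
    rcases hxn.eq_or_lt with h | h
    · rw [← h]; positivity
    · nlinarith
  rw [← hxx, ← hyy, ← mul_pow]
  exact pow_le_pow_left₀ hxn e10 2

end

end Pool.Agent.VQ
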