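import Pool.Agent.helper80.VQ.SpecFL

/-!
# MP_07c750_an, project VQ, row HAC: Haar measure and the cones
-/

set_option autoImplicit false

open scoped MatrixGroups ContDiff Topology UpperHalfPlane ComplexConjugate ENNReal
open UpperHalfPlane MeasureTheory Filter Set

namespace Pool.Agent.VQ

open Pool.Agent.RS
open Pool.Agent.VQE (nm)

noncomputable section

theorem HAC_cont : Continuous m4 := by
  have h : ∀ i j, Continuous (fun g : SL(2, ℝ) => g.1 i j) := fun i j =>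
    (continuous_apply_apply i j).comp continuous_subtype_val
  unfold m4
  refine continuous_pi (fun i => ?_)
  fin_cases i
  · exact h 0 0
  · exact h 0 1
  · exact h 1 0
  · exact h 1 1

theorem HAC_dt (g : SL(2, ℝ)) (x : F4) : dt4 (lm4 g x) = dt4 x := by
  have hdet : g.1 0 0 * g.1 1 1 - g.1 0 1 * g.1 1 0 = 1 := by
    have h := g.det_coe
    rw [Matrix.det_fin_two] at h
    exact h
  show (g.1 0 0 * x 0 + g.1 0 1 * x 2) * (g.1 1 0 * x 1 + g.1 1 1 * x 3) - (g.1 0 0 * x 1 + g.1 0 1 * x 3) * (g.1 1 0 * x 0 + g.1 1 1 * x 2) = x 0 * x 3 - x 1 * x 2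
  linear_combination (x 0 * x 3 - x 1 * x 2) * hdet

theorem HAC_empty : cn4 ∅ = ∅ := by
  ext x
  constructor
  · rintro ⟨l, -, -, g, hg, -⟩
    exact hg
  · intro h; exact h.elim

theorem HAC_mono {A B : Set SL(2, ℝ)} (h : A ⊆ B) : cn4 A ⊆ cn4 B := by
  rintro x ⟨l, h1, h2, g, hg, hx⟩
  exact ⟨l, h1, h2, g, h hg, hx⟩

/-- the measure of the cones -/
theorem HAC_meas (hLMP : LMP_stmt) : ∃ ν : Measure SL(2, ℝ), ∀ A : Set SL(2, ℝ), MeasurableSet A → ν A = volume (cn4 A) := by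
  obtain ⟨-, -, -, hm, -, hun⟩ := hLMP
  refine ⟨Measure.ofMeasurable (fun A _ => volume (cn4 A)) ?_ ?_, ?_⟩
  · show volume (cn4 ∅) = 0
    rw [HAC_empty, measure_empty]
  · intro f hf hd
    show volume (cn4 (⋃ i, f i)) = ∑' i, volume (cn4 (f i))
    have h1 : cn4 (⋃ i, f i) = ⋃ i, cn4 (f i) := by
      ext x
      constructor
      · rintro ⟨l, h1, h2, g, hg, hx⟩
        obtain ⟨i, hi⟩ := mem_iUnion.1 hg
        exact mem_iUnion.2 ⟨i, l, h1, h2, g, hi, hx⟩
      · intro hx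
        obtain ⟨i, l, h1, h2, g, hg, hx⟩ := mem_iUnion.1 hx
        exact ⟨l, h1, h2, g, mem_iUnion.2 ⟨i, hg⟩, hx⟩
    rw [h1, measure_iUnion]
    · intro i j hij
      refine Set.disjoint_left.2 ?_
      rintro x ⟨l, h1, -, g, hg, hx⟩ ⟨l', h1', -, g', hg', hx'⟩
      have h2 := (hun l l' g g' (by linarith) (by linarith) (hx.symm.trans hx')).2
      subst h2
      exact Set.disjoint_left.1 (hd hij) hg hg'
    · exact fun i => hm _ (hf i)
  · intro A hA
    rw [Measure.ofMeasurable_apply A hA]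

theorem HAC_haar : mG.IsHaarMeasure := by
  obtain ⟨hlc, hsc, hcpt, -, -, -, -, -, -, -, -, hnA, hlA, -, -, -, -, hna, hla, -⟩ := RS.A_GLC
  have := hlc
  have := hsc
  obtain ⟨hdG, hK, hsf, -, -⟩ := RS.A_GMG
  have := hsf
  have : IsFiniteMeasureOnCompacts mG := ⟨fun K hK' => hK K hK'⟩
  have : mG.IsMulLeftInvariant := ⟨fun g => RS.A_GLI g⟩
  have : (volume : Measure ℍ).IsOpenPosMeasure := QU.A_INV.2.2.1
  have : mG.IsOpenPosMeasure := by
    refine isOpenPosMeasure_of_mulLeftInvariant_of_compact (dG (Metric.closedBall I 1))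
      (hcpt _ (isCompact_closedBall I 1)) ?_
    rw [(hdG _ Metric.isClosed_closedBall.measurableSet).2]
    exact (Metric.measure_closedBall_pos volume I one_pos).ne'
  exact {}

theorem HAC_pre (hLMP : LMP_stmt) (g : SL(2, ℝ)) (A : Set SL(2, ℝ)) : lm4 g ⁻¹' (cn4 A) = cn4 ((fun h => g * h) ⁻¹' A) := by
  obtain ⟨-, hmul, hsm, -, huniv, hun⟩ := hLMP
  ext x
  constructor
  · rintro ⟨l, h1, h2, h, hh, hx⟩
    have h3 : lm4 g x ∈ cn4 univ := ⟨l, h1, h2, h, mem_univ _, hx⟩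
    rw [huniv, HAC_dt, ← huniv] at h3
    obtain ⟨l', h1', h2', h', -, hx'⟩ := h3
    have h4 : lm4 g x = l' • m4 (g * h') := by rw [hx', hsm, hmul]
    have h5 := (hun l' l (g * h') h (by linarith) (by linarith) (h4.symm.trans hx)).2
    exact ⟨l', h1', h2', h', by show g * h' ∈ A; rw [h5]; exact hh, hx'⟩
  · rintro ⟨l, h1, h2, h, hh, hx⟩
    refine ⟨l, h1, h2, g * h, hh, ?_⟩
    rw [hx, hsm, hmul]

theorem HAC_proof (hLMP : LMP_stmt) : HAC_stmt := by
  obtain ⟨ν, hν⟩ := HAC_meas hLMP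
  have hlc : LocallyCompactSpace SL(2, ℝ) := RS.A_GLC.1
  have hsc : SecondCountableTopology SL(2, ℝ) := RS.A_GLC.2.1
  have hH : mG.IsHaarMeasure := HAC_haar
  have hmeas : ∀ g : SL(2, ℝ), Measurable (fun h : SL(2, ℝ) => g * h) := fun g => (continuous_const.mul continuous_id).measurable
  have hinv : ν.IsMulLeftInvariant := by
    refine ⟨fun g => ?_⟩
    refine Measure.ext (fun A hA => ?_)
    rw [Measure.map_apply (hmeas g) hA, hν _ (hmeas g hA), hν A hA, ← HAC_pre hLMP g A]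
    exact (hLMP.1 g).measure_preimage (hLMP.2.2.2.1 A hA).nullMeasurableSet
  have hfin : IsFiniteMeasureOnCompacts ν := by
    refine ⟨fun K hK => ?_⟩
    rw [hν K hK.measurableSet]
    have h1 : cn4 K ⊆ (fun p : ℝ × SL(2, ℝ) => p.1 • m4 p.2) '' (Icc (9 / 10) (11 / 10) ×ˢ K) := by
      rintro x ⟨l, h1, h2, g, hg, hx⟩
      exact ⟨(l, g), ⟨⟨h1.le, h2.le⟩, hg⟩, hx.symm⟩
    have h2 : IsCompact ((fun p : ℝ × SL(2, ℝ) => p.1 • m4 p.2) '' (Icc (9 / 10) (11 / 10) ×ˢ K)) :=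
      (isCompact_Icc.prod hK).image (continuous_fst.smul (HAC_cont.comp continuous_snd))
    exact (measure_mono h1).trans_lt h2.measure_lt_top
  have huniq : ν = Measure.haarScalarFactor ν mG • mG := Measure.isMulLeftInvariant_eq_smul _ _
  set c : NNReal := Measure.haarScalarFactor ν mG with hc
  have hpos : ν univ ≠ 0 := by
    rw [hν univ MeasurableSet.univ]
    have hset : cn4 univ = {x : F4 | 81 / 100 < dt4 x ∧ dt4 x < 121 / 100} := by
      ext x; exact hLMP.2.2.2.2.1 x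
    have hcd : Continuous dt4 := by
      unfold dt4
      fun_prop
    have hop : IsOpen (cn4 univ) := by
      rw [hset]
      exact (isOpen_lt continuous_const hcd).inter (isOpen_lt hcd continuous_const)
    have hne : (cn4 univ).Nonempty := ⟨(1 : ℝ) • m4 1, 1, by norm_num, by norm_num, 1, mem_univ _, rfl⟩
    exact (hop.measure_pos volume hne).ne'
  have hc0 : c ≠ 0 := by
    intro h
    rw [h, zero_smul] at huniq
    exact hpos (by rw [huniq]; rfl)
  have hc0' : (c : ENNReal) ≠ 0 := by exact_mod_cast hc0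
  refine ⟨(c : ENNReal)⁻¹, ENNReal.inv_ne_zero.2 ENNReal.coe_ne_top, ENNReal.inv_ne_top.2 hc0', fun A hA => ?_⟩
  have h1 : ν A = (c : ENNReal) * mG A := by
    conv_lhs => rw [huniq]
    rfl
  rw [← hν A hA, h1, ← mul_assoc, ENNReal.inv_mul_cancel hc0' ENNReal.coe_ne_top, one_mul]

end

end Pool.Agent.VQ
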