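import Pool.Agent.helper74.VQ.SpecA

set_option autoImplicit false

open scoped MatrixGroups ContDiff Topology UpperHalfPlane ComplexConjugate ENNReal
open UpperHalfPlane MeasureTheory Filter Set

namespace Pool.Agent.VQ

open Pool.Agent.RS

noncomputable section

theorem VCM_det (A : ℂ →L[ℝ] ℂ) (c : ℂ) (h : ∀ x, A x = c * x) : A.det = ‖c‖ ^ 2 := by
  have h1 : (A : ℂ →ₗ[ℝ] ℂ) = Algebra.lmul ℝ ℂ c := by
    apply LinearMap.ext
    intro x
    exact h x
  have h2 : A.det = LinearMap.det (A : ℂ →ₗ[ℝ] ℂ) := rfl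
  rw [h2, h1, ← Algebra.norm_apply, Algebra.norm_complex_apply, Complex.normSq_eq_norm_sq]

/-- the Cayley transform from the disc to the half plane -/
def VCM_m (v : ℂ) : ℂ := Complex.I * (2 + v) / (2 - v)

theorem VCM_deriv (v : ℂ) (hv : ‖v‖ < 2) : HasDerivAt VCM_m (4 * Complex.I / (2 - v) ^ 2) v := by
  have h2 : (2 - v) ≠ 0 := by
    intro h
    have : v = 2 := by linear_combination -h
    rw [this] at hv
    norm_num at hv
  have h3 : HasDerivAt (fun v : ℂ => Complex.I * (2 + v)) (Complex.I * 1) v :=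
    ((hasDerivAt_id v).const_add 2).const_mul Complex.I
  have h4 : HasDerivAt (fun v : ℂ => 2 - v) (-1) v := by
    simpa using (hasDerivAt_id v).const_sub 2
  have h5 := h3.div h4 h2
  have h6 : (Complex.I * 1 * (2 - v) - Complex.I * (2 + v) * -1) / (2 - v) ^ 2 = 4 * Complex.I / (2 - v) ^ 2 := by
    congr 1
    ring
  rw [h6] at h5
  exact h5

theorem VCM_jac (v : ℂ) (hv : ‖v‖ < 2) (him : 0 < (VCM_m v).im) :
    ENNReal.ofReal (‖4 * Complex.I / (2 - v) ^ 2‖ ^ 2) * (((1 / ‖(VCM_m v).im‖₊) ^ 2 : NNReal) : ENNReal) =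
      ENNReal.ofReal (jd v) := by
  have h2 : (2 - v) ≠ 0 := by
    intro h
    have : v = 2 := by linear_combination -h
    rw [this] at hv
    norm_num at hv
  have hn : 0 < ‖2 - v‖ := norm_pos_iff.mpr h2
  have him2 : (VCM_m v).im = (4 - ‖v‖ ^ 2) / ‖2 - v‖ ^ 2 := by
    have e1 : VCM_m v = Complex.I * (2 + v) * (starRingEnd ℂ) (2 - v) / ((‖2 - v‖ ^ 2 : ℝ) : ℂ) := by
      have e2 : (2 - v) * (starRingEnd ℂ) (2 - v) = ((‖2 - v‖ ^ 2 : ℝ) : ℂ) := by
        rw [Complex.mul_conj, Complex.normSq_eq_norm_sq]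
      rw [← e2]
      unfold VCM_m
      have h3 : (starRingEnd ℂ) (2 - v) ≠ 0 := by
        rw [Ne, map_eq_zero]
        exact h2
      field_simp
    rw [e1, Complex.div_ofReal_im]
    congr 1
    rw [← Complex.normSq_eq_norm_sq, Complex.normSq_apply]
    simp [Complex.mul_im, Complex.mul_re]
    ring
  have hv2 : 0 < 4 - ‖v‖ ^ 2 := by
    have := norm_nonneg v
    nlinarith
  have e3 : (((1 / ‖(VCM_m v).im‖₊) ^ 2 : NNReal) : ENNReal) = ENNReal.ofReal ((1 / (VCM_m v).im) ^ 2) := by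
    rw [ENNReal.ofReal, ENNReal.coe_inj]
    ext
    rw [Real.coe_toNNReal _ (by positivity)]
    push_cast
    rw [Real.norm_of_nonneg him.le]
  rw [e3, ← ENNReal.ofReal_mul (by positivity)]
  congr 1
  rw [him2, norm_div, norm_mul, norm_pow, Complex.norm_I]
  unfold jd
  have e4 : ‖(4 : ℂ)‖ = 4 := by norm_num
  rw [e4]
  have e5 : 1 - ‖v‖ ^ 2 / 4 ≠ 0 := by
    intro h
    nlinarith
  field_simp

theorem VCM_map (hVCD : VCD_stmt) : MeasurePreserving cd (volume : Measure ℍ)
    ((volume.restrict (Metric.ball (0 : ℂ) 2)).withDensity fun v => ENNReal.ofReal (jd v)) := by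
  obtain ⟨hcd1, hcd2, -, -, -, -, -, hcont, -, -, -⟩ := hVCD
  refine ⟨hcont.measurable, ?_⟩
  apply Measure.ext
  intro s hs
  rw [Measure.map_apply hcont.measurable hs, withDensity_apply _ hs, Measure.restrict_restrict hs,
    volume_eq_lintegral]
  have himg : UpperHalfPlane.coe '' (cd ⁻¹' s) = VCM_m '' (s ∩ Metric.ball 0 2) := by
    ext w
    constructor
    · rintro ⟨z, hz, rfl⟩
      refine ⟨cd z, ⟨hz, by simpa using (hcd1 z).1⟩, ?_⟩
      have := (hcd2 (cd z) (hcd1 z).1).2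
      rw [(hcd1 z).2] at this
      exact this.symm
    · rintro ⟨v, ⟨hv, hvb⟩, rfl⟩
      have hvb' : ‖v‖ < 2 := by simpa using hvb
      refine ⟨cdi v, ?_, (hcd2 v hvb').2⟩
      show cd (cdi v) ∈ s
      rw [(hcd2 v hvb').1]
      exact hv
  rw [himg]
  have hms : MeasurableSet (s ∩ Metric.ball (0 : ℂ) 2) := hs.inter Metric.isOpen_ball.measurableSet
  have hinj : InjOn VCM_m (s ∩ Metric.ball (0 : ℂ) 2) := by
    intro v hv v' hv' h
    have h1 : ‖v‖ < 2 := by simpa using hv.2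
    have h2 : ‖v'‖ < 2 := by simpa using hv'.2
    have e1 := (hcd2 v h1).2
    have e2 := (hcd2 v' h2).2
    have e3 : cdi v = cdi v' := UpperHalfPlane.ext (by rw [e1, e2]; exact h)
    rw [← (hcd2 v h1).1, e3, (hcd2 v' h2).1]
  rw [lintegral_image_eq_lintegral_abs_det_fderiv_mul volume hms (f' := fun v =>
    ((ContinuousLinearMap.toSpanSingleton ℂ (4 * Complex.I / (2 - v) ^ 2)).restrictScalars ℝ : ℂ →L[ℝ] ℂ))
    (fun v hv => ((VCM_deriv v (by simpa using hv.2)).hasFDerivAt.restrictScalars ℝ).hasFDerivWithinAt) hinj]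
  apply setLIntegral_congr_fun hms
  intro v hv
  have hv2 : ‖v‖ < 2 := by simpa using hv.2
  show ENNReal.ofReal |_| * _ = ENNReal.ofReal (jd v)
  rw [VCM_det _ (4 * Complex.I / (2 - v) ^ 2) (fun x => by
    simp [ContinuousLinearMap.toSpanSingleton_apply, mul_comm]), abs_of_nonneg (by positivity)]
  refine VCM_jac v hv2 ?_
  have e1 : ((cdi v : ℍ) : ℂ) = VCM_m v := (hcd2 v hv2).2
  rw [← e1]
  exact (cdi v).im_pos

theorem VCM_mp (hVCD : VCD_stmt) (g : SL(2, ℝ)) : MeasurePreserving (fun z : ℍ => cd (g⁻¹ • z)) (volume : Measure ℍ)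
    ((volume.restrict (Metric.ball (0 : ℂ) 2)).withDensity fun v => ENNReal.ofReal (jd v)) := by
  have hI : SMulInvariantMeasure SL(2, ℝ) ℍ (volume : Measure ℍ) := QU.A_INV.1
  exact (VCM_map hVCD).comp (measurePreserving_smul g⁻¹ (volume : Measure ℍ))

theorem VCM_emb (hVCD : VCD_stmt) (g : SL(2, ℝ)) : MeasurableEmbedding (fun z : ℍ => cd (g⁻¹ • z)) := by
  have hmp := VCM_mp hVCD g
  obtain ⟨hcd1, hcd2, -, -, -, -, -, hcont, hcon, -, -⟩ := hVCD
  have hrange : range (fun z : ℍ => cd (g⁻¹ • z)) = Metric.ball (0 : ℂ) 2 := by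
    ext v
    constructor
    · rintro ⟨z, rfl⟩
      simpa using (hcd1 (g⁻¹ • z)).1
    · intro hv
      have hv' : ‖v‖ < 2 := by simpa using hv
      refine ⟨g • cdi v, ?_⟩
      show cd (g⁻¹ • g • cdi v) = v
      rw [inv_smul_smul, (hcd2 v hv').1]
  refine MeasurableEmbedding.of_measurable_inverse_on_range (g := fun v => g • cdi v.1) hmp.measurable ?_ ?_ ?_
  · rw [hrange]
    exact Metric.isOpen_ball.measurableSet
  · have h1 := hcon g
    rw [← hrange] at h1
    exact (continuousOn_iff_continuous_domRestrict.mp h1).measurable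
  · intro z
    show g • cdi (cd (g⁻¹ • z)) = z
    rw [(hcd1 (g⁻¹ • z)).2, smul_inv_smul]

theorem VCM_proof (hVCD : VCD_stmt) : VCM_stmt := by
  have hjm : Measurable jd := by
    unfold jd
    fun_prop
  have hback : ∀ (g : SL(2, ℝ)) (z : ℍ), g • cdi (cd (g⁻¹ • z)) = z := by
    intro g z
    rw [(hVCD.1 (g⁻¹ • z)).2, smul_inv_smul]
  have hjn : ∀ v, 0 ≤ jd v := fun v => by
    unfold jd
    positivity
  refine ⟨?_, ?_, ?_⟩
  · intro E _ _ g f
    have h1 := (VCM_mp hVCD g).integral_comp (VCM_emb hVCD g) (fun v => f (g • cdi v))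
    simp only [hback] at h1
    rw [h1, integral_withDensity_eq_integral_toReal_smul hjm.ennreal_ofReal (ae_of_all _ fun v => ENNReal.ofReal_lt_top)]
    refine integral_congr_ae (ae_of_all _ fun v => ?_)
    simp only [ENNReal.toReal_ofReal (hjn v)]
  · intro g f hf
    have h1 := (VCM_mp hVCD g).lintegral_comp_emb (VCM_emb hVCD g) (fun v => f (g • cdi v))
    simp only [hback] at h1
    rw [h1]
    rw [lintegral_withDensity_eq_lintegral_mul_non_measurable₀ _ hjm.ennreal_ofReal.aemeasurable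
      (ae_of_all _ fun v => ENNReal.ofReal_lt_top)]
    rfl
  · intro g f
    have h1 := (VCM_mp hVCD g).integrable_comp_emb (VCM_emb hVCD g) (g := fun v => f (g • cdi v))
    have e : ((fun v => f (g • cdi v)) ∘ fun z : ℍ => cd (g⁻¹ • z)) = f := by
      funext z
      simp only [Function.comp_apply, hback]
    rw [e] at h1
    rw [h1, integrable_withDensity_iff_integrable_smul' hjm.ennreal_ofReal (ae_of_all _ fun v => ENNReal.ofReal_lt_top)]
    unfold IntegrableOn
    refine iff_of_eq (congrArg (fun F => Integrable F (volume.restrict (Metric.ball (0 : ℂ) 2))) ?_)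
    funext v
    rw [ENNReal.toReal_ofReal (hjn v), Complex.real_smul]

end

end Pool.Agent.VQ
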