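import Pool.Agent.helper84.VQ.Spec4a

/-!
# MP_07c750_an, project VQ, row CH4: chains of big steps are pseudo-orbits
-/

set_option autoImplicit false

open scoped MatrixGroups ContDiff Topology UpperHalfPlane ComplexConjugate ENNReal
open UpperHalfPlane MeasureTheory Filter Set

namespace Pool.Agent.VQ

open Pool.Agent.RS
open Pool.Agent.VQE (nm)

theorem CH4_refl (p : SL(2, ℝ) × ℝ) : Pm p p := ⟨Or.inl rfl, rfl⟩

theorem CH4_trans {p q x : SL(2, ℝ) × ℝ} (h1 : Pm p q) (h2 : Pm q x) : Pm p x := by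
  refine ⟨?_, h2.2.trans h1.2⟩
  rcases h1.1 with a | a <;> rcases h2.1 with b | b
  · left; rw [b, a]
  · right; rw [b, a]
  · right; rw [b, a]
  · left; rw [b, a, neg_neg]

theorem CH4_proof (hCA4 : CA4_stmt) (hPO4 : PO4_stmt) : CH4_stmt := by
  intro d D hFE A R t ε k N v hsg hk hm hr0 hr1 hε hW hN hCh
  set n0 : ℕ := A.m * k with hn0
  have hstep : ∀ p q : SL(2, ℝ) × ℝ, Reach D A R p q → ∃ w : ℕ → SL(2, ℝ) × ℝ, PO D d t ε n0 w ∧ w 0 = p ∧ Pm q (w n0) ∧
      ∀ i ≤ n0, |(w i).2 - p.2| ≤ (A.m + 1) * A.r R :=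
    fun p q hpq => hPO4 d D hFE A R t ε k p q hsg hk hm hr0 hr1 hε hW hpq
  have hr : 0 ≤ ((A.m : ℝ) + 1) * A.r R := by positivity
  have main : ∀ M : ℕ, Ch D A R (M + 1) v → ∃ w : ℕ → SL(2, ℝ) × ℝ, PO D d t ε ((M + 1) * n0) w ∧ w 0 = v 0 ∧
      (∀ j ≤ M + 1, Pm (v j) (w (j * n0))) ∧ ∀ i ≤ (M + 1) * n0, |(w i).2 - (v 0).2| ≤ ((M + 1 : ℕ) : ℝ) * ((A.m + 1) * A.r R) := by
    intro M
    induction M with
    | zero =>
      intro hc
      obtain ⟨w, h1, h2, h3, h4⟩ := hstep (v 0) (v 1) (hc 0 (by norm_num))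
      refine ⟨w, ?_, h2, ?_, ?_⟩
      · rw [zero_add, one_mul]; exact h1
      · intro j hj
        rcases Nat.lt_or_ge j 1 with h | h
        · have : j = 0 := by omega
          subst this
          rw [zero_mul, h2]
          exact CH4_refl _
        · have : j = 1 := by omega
          subst this
          rw [one_mul]
          exact h3
      · intro i hi
        rw [zero_add, one_mul] at hi
        have := h4 i hi
        simpa using this
    | succ M ih =>
      intro hc
      obtain ⟨w1, a1, a2, a3, a4⟩ := ih (fun j hj => hc j (by omega))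
      obtain ⟨w2, b1, b2, b3, b4⟩ := hstep (v (M + 1)) (v (M + 1 + 1)) (hc (M + 1) (by omega))
      have hlast : Pm (v (M + 1)) (w1 ((M + 1) * n0)) := a3 (M + 1) le_rfl
      have hjoin : Pm (w2 0) (w1 ((M + 1) * n0)) := by rw [b2]; exact hlast
      obtain ⟨w, c1, c2, c3⟩ := hCA4 d D hFE t ε ((M + 1) * n0) n0 w1 w2 a1 b1 hjoin
      have hn : (M + 1 + 1) * n0 = (M + 1) * n0 + n0 := by ring
      refine ⟨w, ?_, ?_, ?_, ?_⟩
      · rw [hn]; exact c1
      · rw [c2 0 (Nat.zero_le _), a2]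
      · intro j hj
        rcases Nat.lt_or_ge j (M + 1 + 1) with h | h
        · have hj' : j ≤ M + 1 := by omega
          rw [c2 (j * n0) (Nat.mul_le_mul_right _ hj')]
          exact a3 j hj'
        · have : j = M + 1 + 1 := by omega
          subst this
          rw [hn]
          exact CH4_trans b3 (c3 n0 le_rfl)
      · intro i hi
        have hcast : ((M + 1 + 1 : ℕ) : ℝ) * (((A.m : ℝ) + 1) * A.r R) = ((M + 1 : ℕ) : ℝ) * (((A.m : ℝ) + 1) * A.r R) + ((A.m : ℝ) + 1) * A.r R := by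
          push_cast; ring
        rw [hcast]
        rcases Nat.lt_or_ge ((M + 1) * n0) i with h | h
        · obtain ⟨i', rfl⟩ := Nat.exists_eq_add_of_le h.le
          have hi' : i' ≤ n0 := by rw [hn] at hi; omega
          have e1 : (w ((M + 1) * n0 + i')).2 = (w2 i').2 := (c3 i' hi').2
          have e2 := b4 i' hi'
          have e3 := a4 ((M + 1) * n0) le_rfl
          rw [hlast.2] at e3
          rw [e1]
          have e4 : (w2 i').2 - (v 0).2 = ((w2 i').2 - (v (M + 1)).2) + ((v (M + 1)).2 - (v 0).2) := by ring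
          rw [e4]
          have e5 := abs_add_le ((w2 i').2 - (v (M + 1)).2) ((v (M + 1)).2 - (v 0).2)
          linarith
        · rw [c2 i h]
          have := a4 i h
          linarith
  obtain ⟨M, rfl⟩ : ∃ M, N = M + 1 := ⟨N - 1, by omega⟩
  exact main M hCh

end Pool.Agent.VQ
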